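import Pool.Agent.Lib.Skw.Stm
import Pool.Agent.Lib.Skw.Mo2
import Pool.Agent.Lib.Skw.Gen2
import Pool.Agent.Lib.Skw.Dbf

/-!
Problem MP_3c016c_gt (Q1: is `N(M) ≤ N(M / Γ)` for the totally skew embedding dimension `N`?).

Q1 for the closed orientable surfaces `M` with a quotient `M / Γ` which is not orientable.

Closed orientable surfaces are given as doubles of compact domains of the plane with smooth
boundary: for a smooth function `ρ` on the plane with `dρ ≠ 0` where `ρ = 0`, and `{ρ ≥ 0}` compact,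
the surface of the points `(z, s)` of `ℝ^2 × ℝ` with `s^2 = ρ z`. For the disc with `g` holes it is
the closed orientable surface of genus `g`. The definitions are in `Pool/Agent/Lib/Skw/Hyp.lean` and
`Pool/Agent/Lib/Skw/Stm.lean` (`ProjIn`: the projective plane).
-/

open Pool.Agent.Lib.Skw

namespace Pool.Agent.Results.MP_3c016c_gt.ClosedSurfaces

/-- **Result.** (1) One smooth map `f` of `ℝ^2 × ℝ` into `ℝ^7` restricts to a totally skew embedding
of all doubles. (2) The disc with `g` round holes is a domain as in (1). (3) If the projective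
plane, or two disjoint Möbius bands, are totally skew in `ℝ^N`, then `N ≥ 7`, (4) and all doubles
have a totally skew embedding into `ℝ^N`. -/
theorem result :
    (∃ f : Cyl 2 → Eu 7, ∀ ρ : Eu 2 → ℝ, SmoothDomain ρ → TSDouble ρ 7 f) ∧
    (∀ g : ℕ, ∃ ρ : Eu 2 → ℝ, SmoothDomain ρ ∧ {z | 0 ≤ ρ z} = HoledDisc g) ∧
    (∀ N : ℕ, ProjIn 2 N ∨ MoebiusIn N → 7 ≤ N) ∧
    ∀ N : ℕ, ProjIn 2 N ∨ MoebiusIn N → ∀ ρ : Eu 2 → ℝ, SmoothDomain ρ → DoubleIn ρ N := by
  have h7 : ∀ N : ℕ, ProjIn 2 N ∨ MoebiusIn N → 7 ≤ N := fun _ h =>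
    h.elim projIn_two moebiusIn_seven
  obtain ⟨f, hf⟩ := far_even (n := 2) (N := 7) (by decide) (by norm_num)
  exact ⟨⟨f, fun ρ _ => hf.double ρ⟩, fun g => ⟨hol g, hol_domain g, hol_set g⟩, h7,
    fun N h ρ _ => DoubleIn.pad (h7 N h) ⟨f, hf.double ρ⟩⟩

end Pool.Agent.Results.MP_3c016c_gt.ClosedSurfaces
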