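import Pool.Agent.Lib.Skw.Dbf
import Pool.Agent.Lib.Skw.Rnd

/-!
Problem MP_3c016c_gt (Q1: is `N(M) ≤ N(M / Γ)` for the totally skew embedding dimension `N`?).

Smaller upper bounds for the left side `N(M)` of Q1, for all closed `n`-manifolds `M` which are
doubles of compact domains of `ℝ^n` with smooth boundary, and for the closed `n`-manifolds which are
boundaries of (rounded) products of a compact domain of `ℝ^m` and the disc of dimension `k ≥ 2`.

For a smooth function `ρ` on `ℝ^n` with `dρ ≠ 0` where `ρ = 0`, and `{ρ ≥ 0}` compact, the double of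
`{ρ ≥ 0}` is the closed hypersurface of the points `(z, s)` of `ℝ^n × ℝ` with `s^2 = ρ z`; in part
(2) `s` is in `ℝ^k` and the hypersurface is `|s|^2 = ρ z`. The definitions are in
`Pool/Agent/Lib/Skw/Hyp.lean` and `Pool/Agent/Lib/Skw/Hy4.lean`.
-/

open Pool.Agent.Lib.Skw

namespace Pool.Agent.Results.MP_3c016c_gt.DoubleBound

/-- **Result.** (1) If `N ≥ 3n + 2`, or `n` is even and `N ≥ 3n + 1`, then there is one smooth map
`f` of `ℝ^n × ℝ` into `ℝ^N` which restricts to a totally skew embedding of the doubles of all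
compact domains of `ℝ^n` with smooth boundary. (2) If `n` is odd, `m + k = n + 1`, `k ≥ 2` and
`N ≥ 3n + 1`, then there is one smooth map `f` of `ℝ^m × ℝ^k` into `ℝ^N` which restricts to a
totally skew embedding of the hypersurfaces `|s|^2 = ρ z`, for all compact domains `ρ ≥ 0` of `ℝ^m`
with smooth boundary. -/
theorem result :
    (∀ n N : ℕ, (3 * n + 2 ≤ N ∨ Even n ∧ 3 * n + 1 ≤ N) →
      ∃ f : Cyl n → Eu N, ∀ ρ : Eu n → ℝ, SmoothDomain ρ → TSDouble ρ N f) ∧
    ∀ n m k N : ℕ, Odd n → m + k = n + 1 → 2 ≤ k → 3 * n + 1 ≤ N →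
      ∃ f : EE m k → Eu N, ∀ ρ : Eu m → ℝ, SmoothDomain ρ → TSRound ρ N f := by
  refine ⟨fun n N h => ?_, fun n m k N hn hmk hk hN => ?_⟩
  · obtain ⟨f, hf⟩ : ∃ f : Cyl n → Eu N, Far f := by
      rcases h with h | ⟨h1, h2⟩
      · exact far_all h
      · exact far_even h1 h2
    exact ⟨f, fun ρ _ => hf.double ρ⟩
  · obtain ⟨f, hf⟩ := exists_round (m := m) (k := k) (N := N)
      (by rw [hmk]; exact hn.add_one) hk (by omega)
    exact ⟨f, fun ρ _ => hf ρ⟩

end Pool.Agent.Results.MP_3c016c_gt.DoubleBound
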