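import Pool.Agent.Lib.Skw.Stm

/-!
Problem MP_3c016c_gt (Q1: is `N(M) ≤ N(M / Γ)` for the totally skew embedding dimension `N`?).

New upper bounds for the totally skew embedding dimension of the spheres.

The definitions are in `Pool/Agent/Lib/Skw/Stm.lean`. `SphereIn n N` says that the sphere `S^n` has
a totally skew embedding into `ℝ^N`, given as a smooth function on `ℝ^(n+1) ∖ {0}` constant on the
rays from `0`.
-/

open Pool.Agent.Lib.Skw

namespace Pool.Agent.Results.MP_3c016c_gt.SphereBound

/-- **Result.**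

1. If `b` is a positive definite inner product on `ℝ^(n+1)` and `B_1, …, B_s` are symmetric
   bilinear forms such that no two nonzero vectors are orthogonal for all of `b, B_1, …, B_s`, then
   `S^n` has a totally skew embedding into `ℝ^(n+1+s)`.
2. `S^n` has a totally skew embedding into `ℝ^(3n+1)`, for every `n`: `N(S^n) ≤ 3n + 1`.
3. `S^n` has a totally skew embedding into `ℝ^(3n)` for every odd `n ≥ 3`: `N(S^n) ≤ 3n`. -/
theorem result :
    (∀ (n s : ℕ) (b : Form (n + 1)) (B : Fin s → Form (n + 1)), PosForm b →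
      (∀ i, SymForm (B i)) → Nonsing b B → SphereIn n (n + 1 + s)) ∧
    (∀ n : ℕ, SphereIn n (3 * n + 1)) ∧
    ∀ n : ℕ, Odd n → 3 ≤ n → SphereIn n (3 * n) :=
  ⟨fun _ _ _ _ hb hB h => sphereIn_of_forms hb hB h, sphereIn_all, fun _ hn h => sphereIn_odd hn h⟩

end Pool.Agent.Results.MP_3c016c_gt.SphereBound
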