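import Pool.Agent.Lib.Skw.Gen2
import Pool.Agent.Lib.Skw.Thr
import Pool.Agent.Lib.Skw.Kl3

/-!
Problem MP_3c016c_gt (Q1: is `N(M) ≤ N(M / Γ)` for the totally skew embedding dimension `N`?).

Q1 for the connected sums `M` of copies of `S^2 × S^1` with a quotient `M / Γ` which is not
orientable.

The three-manifolds `M` are the hypersurfaces `|s|^2 = ρ z` of `ℝ^2 × ℝ^2`, for a smooth function
`ρ` on the plane with `dρ ≠ 0` where `ρ = 0`, and `{ρ ≥ 0}` compact; for the disc with `g` holes it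
is the connected sum of `g` copies of `S^2 × S^1`. A three-manifold which is not orientable contains
an open solid Klein bottle `ℝ^3 / ((x, y, z) ∼ (x + π, -y, z))`. The definitions are in
`Pool/Agent/Lib/Skw/Hyp.lean` and `Pool/Agent/Lib/Skw/Hy3.lean`.
-/

open Pool.Agent.Lib.Skw

namespace Pool.Agent.Results.MP_3c016c_gt.ThreeManifolds

/-- **Result.** (1) One smooth map `f` of `ℝ^2 × ℝ^2` into `ℝ^10` restricts to a totally skew
embedding of all hypersurfaces `|s|^2 = ρ z`. (2) The disc with `g` round holes is a domain as in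
(1). (3) If the open solid Klein bottle has an injective totally skew immersion into `ℝ^N`, then
`N ≥ 10`, (4) and all these hypersurfaces have a totally skew embedding into `ℝ^N`. -/
theorem result :
    (∃ f : E4 → Eu 10, ∀ ρ : Eu 2 → ℝ, SmoothDomain ρ → TSSpun ρ 10 f) ∧
    (∀ g : ℕ, ∃ ρ : Eu 2 → ℝ, SmoothDomain ρ ∧ {z | 0 ≤ ρ z} = HoledDisc g) ∧
    (∀ N : ℕ, SolidKleinIn N → 10 ≤ N) ∧
    ∀ N : ℕ, SolidKleinIn N → ∀ ρ : Eu 2 → ℝ, SmoothDomain ρ → SpunIn ρ N :=
  ⟨⟨F10, fun ρ _ => F10_ts ρ⟩, fun g => ⟨hol g, hol_domain g, hol_set g⟩,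
    fun _ h => solidKleinIn_ten h,
    fun _ h ρ _ => SpunIn.pad (solidKleinIn_ten h) ⟨F10, F10_ts ρ⟩⟩

end Pool.Agent.Results.MP_3c016c_gt.ThreeManifolds
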